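import Pool.Agent.Helper79.NZ.Cor

/-!
NISZK protocols for the inner product: smooth protocols and protocols with small completeness
error.
-/

set_option autoImplicit false

namespace Pool.Agent.Helper79.NZ

open Finset

theorem pr_nonneg {X Y : Type} {k : ℕ} (N : Prot X Y k) (x : X) (y : Y) (z : Fin k → Bool) :
    0 ≤ N.pr x y z := by
  rw [Prot.pr]
  refine sum_nonneg fun r _ => sum_nonneg fun s _ => ?_
  split_ifs
  exacts [mul_nonneg (N.μ_nonneg r) (N.ν_nonneg s), le_rfl]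

theorem pr_sum {X Y : Type} {k : ℕ} (N : Prot X Y k) (x : X) (y : Y) : ∑ z, N.pr x y z = 1 := by
  simp only [Prot.pr]
  rw [sum_comm]
  have h1 : ∀ r, (∑ z : Fin k → Bool, ∑ s, if N.P.run (x, r) (y, s) = z then N.μ r * N.ν s else 0)
      = N.μ r := by
    intro r
    rw [sum_comm]
    have h2 : ∀ s, (∑ z : Fin k → Bool, if N.P.run (x, r) (y, s) = z then N.μ r * N.ν s else 0) =
        N.μ r * N.ν s := by
      intro s
      rw [sum_ite_eq]
      simp
    simp only [h2]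
    rw [← mul_sum, N.ν_sum, mul_one]
  simp only [h1]
  exact N.μ_sum

/-- the distance from uniform is the mean of the positive part of `1 - 2 ^ k * pr` -/
theorem dist_eq {X Y : Type} {k : ℕ} (N : Prot X Y k) (x : X) (y : Y) :
    N.dist x y = 1 / 2 ^ k * ∑ z, max (1 - 2 ^ k * N.pr x y z) 0 := by
  have hk : (0 : ℝ) < 2 ^ k := by positivity
  have h1 : ∀ z, |N.pr x y z - 1 / 2 ^ k| =
      2 * (1 / 2 ^ k * max (1 - 2 ^ k * N.pr x y z) 0) - (1 / 2 ^ k - N.pr x y z) := by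
    intro z
    have h2 : 1 / 2 ^ k * (1 - 2 ^ k * N.pr x y z) = 1 / 2 ^ k - N.pr x y z := by
      field_simp
    rcases le_total (1 - 2 ^ k * N.pr x y z) 0 with h | h
    · rw [max_eq_right h, abs_of_nonneg]
      · ring
      · have : 1 / 2 ^ k * (1 - 2 ^ k * N.pr x y z) ≤ 0 :=
          mul_nonpos_of_nonneg_of_nonpos (by positivity) h
        linarith
    · rw [max_eq_left h, abs_of_nonpos, h2]
      · ring
      · have : 0 ≤ 1 / 2 ^ k * (1 - 2 ^ k * N.pr x y z) := mul_nonneg (by positivity) h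
        linarith
  rw [Prot.dist]
  simp only [h1]
  rw [sum_sub_distrib, sum_sub_distrib, pr_sum, sum_const, card_univ, nsmul_eq_mul, ← mul_sum,
    ← mul_sum]
  have h3 : (Fintype.card (Fin k → Bool) : ℝ) = 2 ^ k := by simp
  rw [h3]
  field_simp
  ring

/-- single outputs have probability at most `1 / 2 ^ k` plus the distance -/
theorem pr_le {X Y : Type} {k : ℕ} (N : Prot X Y k) (x : X) (y : Y) (z : Fin k → Bool) :
    N.pr x y z ≤ 1 / 2 ^ k + N.dist x y := by
  have hk : (0 : ℝ) < 2 ^ k := by positivity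
  have h1 : ∑ z, (N.pr x y z - 1 / 2 ^ k) = 0 := by
    rw [sum_sub_distrib, pr_sum, sum_const, card_univ, nsmul_eq_mul]
    have h3 : (Fintype.card (Fin k → Bool) : ℝ) = 2 ^ k := by simp
    rw [h3]
    field_simp
    ring
  have h2 : N.pr x y z - 1 / 2 ^ k + |N.pr x y z - 1 / 2 ^ k| ≤
      ∑ z, (N.pr x y z - 1 / 2 ^ k + |N.pr x y z - 1 / 2 ^ k|) := by
    apply single_le_sum (f := fun z => N.pr x y z - 1 / 2 ^ k + |N.pr x y z - 1 / 2 ^ k|)
    · intro z _
      linarith [neg_abs_le (N.pr x y z - 1 / 2 ^ k)]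
    · exact mem_univ z
  rw [sum_add_distrib, h1, zero_add] at h2
  have h3 := le_abs_self (N.pr x y z - 1 / 2 ^ k)
  rw [Prot.dist]
  linarith

/-- the main inequality before optimisation -/
theorem core {n k m : ℕ} (N : Prot (V n) (V n) k) (hm : Even m) (hm2 : 2 ≤ m)
    (hN : N.Solves (1 / 3) (ip n))
    (hM : ∀ x y z, ip n x y = true → 2 ^ k * N.pr x y z ≤ 1 + 16 / 25 * (m : ℝ) ^ 2) :
    11 / 100 * √((2 : ℝ) ^ n) ≤
      (2 * (1 + 25 / 8 / (m : ℝ) ^ 2 + 25 / 8 / (m : ℝ) ^ 2 * 4 ^ k) + 1) ^ m + 5 := by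
  set e : ℝ := 25 / 8 / (m : ℝ) ^ 2 with he
  have he0 : 0 ≤ e := by positivity
  set R : ℝ := (2 * (1 + e + e * 4 ^ k) + 1) ^ m with hR
  have hR0 : 0 ≤ R := by positivity
  have hk : (0 : ℝ) < 2 ^ k := by positivity
  set A : V n → V n → ℝ := fun x y =>
    1 / 2 ^ k * ∑ z, (1 + tc m (1 + e * (1 - 2 ^ k * N.pr x y z))) with hA
  have hcorA : Cor n (1 + R) A := by
    have h1 : ∀ z, Cor n (1 + R) (fun x y => 1 + tc m (1 + e * (1 - 2 ^ k * N.pr x y z))) := by
      intro z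
      exact cor_one.add (cor_tc N z he0 le_rfl m).1
    have h2 := (Cor.sum (univ : Finset (Fin k → Bool)) h1).smul (1 / 2 ^ k)
    refine h2.mono ?_
    rw [abs_of_nonneg (by positivity), card_univ]
    have h3 : (Fintype.card (Fin k → Bool) : ℝ) = 2 ^ k := by simp
    rw [h3]
    apply le_of_eq
    field_simp
  have hcor : Cor n (R + 5) (fun x y => A x y + (-3.846) * 1) := by
    refine (hcorA.add (cor_one.smul (-3.846))).mono ?_
    rw [abs_neg, abs_of_nonneg (by norm_num)]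
    linarith
  -- mean of a function of the form c S + d
  have hcard : ((univ : Finset (Fin k → Bool)).card : ℝ) = 2 ^ k := by simp
  have hyes : ∀ x y, ip n x y = true → A x y ≤ 3.734 := by
    intro x y hxy
    have h1 : ∀ z, 1 + tc m (1 + e * (1 - 2 ^ k * N.pr x y z)) ≤
        2 + 52 / 10 * max (1 - 2 ^ k * N.pr x y z) 0 := by
      intro z
      have := tc_yes (m := m) (by omega) (t := 2 ^ k * N.pr x y z)
        (mul_nonneg hk.le (pr_nonneg N x y z)) (hM x y z hxy)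
      linarith
    have h2 : A x y ≤ 1 / 2 ^ k * ∑ z, (2 + 52 / 10 * max (1 - 2 ^ k * N.pr x y z) 0) :=
      mul_le_mul_of_nonneg_left (sum_le_sum fun z _ => h1 z) (by positivity)
    have h3 : 1 / 2 ^ k * ∑ z, (2 + 52 / 10 * max (1 - 2 ^ k * N.pr x y z) 0) =
        2 + 52 / 10 * N.dist x y := by
      rw [sum_add_distrib, sum_const, nsmul_eq_mul, hcard, ← mul_sum, dist_eq]
      field_simp
    rw [h3] at h2
    have h4 := (hN x y).1 hxy
    linarith
  have hno : ∀ x y, ip n x y = false → 3.959 ≤ A x y := by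
    intro x y hxy
    have h1 : ∀ z, (2 + 25 / 8 + 1.6276) * max (1 - 2 ^ k * N.pr x y z) 0 - 0.5426 ≤
        1 + tc m (1 + e * (1 - 2 ^ k * N.pr x y z)) := by
      intro z
      exact tc_no hm hm2 (mul_nonneg hk.le (pr_nonneg N x y z))
    have h2 : 1 / 2 ^ k * ∑ z, ((2 + 25 / 8 + 1.6276) * max (1 - 2 ^ k * N.pr x y z) 0 - 0.5426) ≤
        A x y := mul_le_mul_of_nonneg_left (sum_le_sum fun z _ => h1 z) (by positivity)
    have h3 : 1 / 2 ^ k * ∑ z, ((2 + 25 / 8 + 1.6276) * max (1 - 2 ^ k * N.pr x y z) 0 - 0.5426) =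
        (2 + 25 / 8 + 1.6276) * N.dist x y - 0.5426 := by
      rw [sum_sub_distrib, sum_const, nsmul_eq_mul, hcard, ← mul_sum, dist_eq]
      field_simp
    rw [h3] at h2
    have h4 := (hN x y).2 hxy
    nlinarith
  have hlow : ∀ x y : V n, 11 / 100 ≤ chi x y * 1 * 1 * (A x y + (-3.846) * 1) := by
    intro x y
    cases h : ip n x y with
    | true =>
      rw [chi_true h]
      have := hyes x y h
      linarith
    | false =>
      rw [chi_false h]
      have := hno x y h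
      linarith
  have h1 := hcor (fun _ => 1) (fun _ => 1) (fun _ => by simp) (fun _ => by simp)
  have h2 : (∑ x : V n, ∑ y : V n, (11 / 100 : ℝ)) ≤
      ∑ x, ∑ y, chi x y * 1 * 1 * (A x y + (-3.846) * 1) :=
    sum_le_sum fun x _ => sum_le_sum fun y _ => hlow x y
  have h3 := h2.trans ((le_abs_self _).trans h1)
  have hcn : ((univ : Finset (V n)).card : ℝ) = 2 ^ n := by simp
  simp only [sum_const, nsmul_eq_mul, hcn] at h3
  have h4 : √((8 : ℝ) ^ n) * √((2 : ℝ) ^ n) = 2 ^ n * 2 ^ n := by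
    rw [← Real.sqrt_mul (by positivity), ← mul_pow]
    have : ((8 : ℝ) * 2) ^ n = (2 ^ n * 2 ^ n) ^ 2 := by
      rw [← mul_pow, ← pow_mul, mul_comm n 2, pow_mul]
      norm_num
    rw [this, Real.sqrt_sq (by positivity)]
  have h5 : 0 < √((8 : ℝ) ^ n) := Real.sqrt_pos.2 (by positivity)
  have h6 : (11 / 100 * √((2 : ℝ) ^ n)) * √((8 : ℝ) ^ n) ≤ (R + 5) * √((8 : ℝ) ^ n) := by
    calc (11 / 100 * √((2 : ℝ) ^ n)) * √((8 : ℝ) ^ n) =
        11 / 100 * (√((8 : ℝ) ^ n) * √((2 : ℝ) ^ n)) := by ring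
      _ = 2 ^ n * (2 ^ n * (11 / 100)) := by rw [h4]; ring
      _ ≤ _ := h3
  exact le_of_mul_le_mul_right h6 h5

theorem k_pos {n k : ℕ} (N : Prot (V n) (V n) k) {ε : ℝ} (hN : N.Solves ε (ip n)) : 1 ≤ k := by
  by_contra hk
  have hk0 : k = 0 := by omega
  subst hk0
  have h1 : ip n (fun _ => false) (fun _ => false) = false := by simp [ip]
  have h2 := (hN _ _).2 h1
  rw [dist_eq] at h2
  have h3 : ∀ z : Fin 0 → Bool, N.pr (fun _ : Fin n => false) (fun _ : Fin n => false) z = 1 := by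
    intro z
    have h4 := pr_sum N (fun _ : Fin n => false) (fun _ : Fin n => false)
    rw [Fintype.sum_unique] at h4
    rw [← h4]
    congr 1
    exact Subsingleton.elim _ _
  simp only [h3] at h2
  norm_num at h2

/-- smooth protocols: if no output has probability more than `M / 2 ^ k` on a 1-input, then
`k * √M` is at least linear in `n` -/
theorem smooth {n k : ℕ} (N : Prot (V n) (V n) k) (hN : N.Solves (1 / 3) (ip n)) {M : ℝ}
    (hM1 : 1 ≤ M) (hM : ∀ x y z, ip n x y = true → N.pr x y z ≤ M / 2 ^ k) :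
    (n : ℝ) ≤ 48 * k * √M := by
  have hk := k_pos N hN
  have hk2 : (0 : ℝ) < 2 ^ k := by positivity
  set s : ℕ := ⌈√M⌉₊ with hs
  have hsM : √M ≤ s := Nat.le_ceil _
  have hsq : 1 ≤ √M := by rw [Real.one_le_sqrt]; exact hM1
  have hs1 : 1 ≤ s := by
    have : (1 : ℝ) ≤ s := hsq.trans hsM
    exact_mod_cast this
  have hs2 : (s : ℝ) < √M + 1 := Nat.ceil_lt_add_one (by linarith)
  set m : ℕ := 2 * s with hm
  have hmR : (m : ℝ) = 2 * s := by rw [hm]; push_cast; ring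
  have hMm : M ≤ 1 + 16 / 25 * (m : ℝ) ^ 2 := by
    rw [hmR]
    have h1 : M ≤ (s : ℝ) ^ 2 := by
      rw [← Real.sq_sqrt (by linarith : (0 : ℝ) ≤ M)]
      exact pow_le_pow_left₀ (by linarith) hsM 2
    nlinarith
  have h1 := core (m := m) N (even_two_mul s) (by omega) hN (fun x y z hxy => by
    have h2 := hM x y z hxy
    rw [le_div_iff₀ hk2] at h2
    linarith)
  -- numerics
  have hm2 : (2 : ℝ) ≤ m := by
    rw [hmR]
    have : (1 : ℝ) ≤ s := by exact_mod_cast hs1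
    linarith
  have h4k : (4 : ℝ) ≤ 4 ^ k := by
    calc (4 : ℝ) = 4 ^ 1 := by norm_num
      _ ≤ 4 ^ k := pow_le_pow_right₀ (by norm_num) hk
  have he : 25 / 8 / (m : ℝ) ^ 2 ≤ 25 / 32 := by
    rw [div_le_iff₀ (by positivity)]
    nlinarith
  have hbase : 2 * (1 + 25 / 8 / (m : ℝ) ^ 2 + 25 / 8 / (m : ℝ) ^ 2 * 4 ^ k) + 1 ≤
      (4 : ℝ) ^ (k + 1) := by
    have h2 : 25 / 8 / (m : ℝ) ^ 2 * 4 ^ k ≤ 25 / 32 * 4 ^ k :=
      mul_le_mul_of_nonneg_right he (by positivity)
    have e4 : (4 : ℝ) ^ (k + 1) = 4 ^ k * 4 := pow_succ _ _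
    rw [e4]
    nlinarith
  have hkm : 2 ≤ k * m := by
    have : 2 ≤ m := by omega
    nlinarith
  have hpow : (2 * (1 + 25 / 8 / (m : ℝ) ^ 2 + 25 / 8 / (m : ℝ) ^ 2 * 4 ^ k) + 1) ^ m ≤
      (16 : ℝ) ^ (k * m) := by
    calc _ ≤ ((4 : ℝ) ^ (k + 1)) ^ m := pow_le_pow_left₀ (by positivity) hbase m
      _ ≤ ((4 : ℝ) ^ (2 * k)) ^ m := by
          apply pow_le_pow_left₀ (by positivity)
          exact pow_le_pow_right₀ (by norm_num) (by omega)
      _ = (16 : ℝ) ^ (k * m) := by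
          rw [← pow_mul, mul_assoc, pow_mul]
          norm_num
  have h256 : (256 : ℝ) ≤ 16 ^ (k * m) := by
    calc (256 : ℝ) = 16 ^ 2 := by norm_num
      _ ≤ _ := pow_le_pow_right₀ (by norm_num) hkm
  have h3 : √((2 : ℝ) ^ n) ≤ 16 ^ (k * m + 1) := by
    rw [pow_succ]
    linarith
  have h4 : (2 : ℝ) ^ n ≤ 2 ^ (8 * (k * m + 1)) := by
    have h5 := (Real.sqrt_le_left (by positivity)).1 h3
    refine h5.trans (le_of_eq ?_)
    rw [← pow_mul]
    have : (16 : ℝ) = 2 ^ 4 := by norm_num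
    rw [this, ← pow_mul]
    congr 1
    ring
  have h5 : n ≤ 8 * (k * m + 1) := (pow_le_pow_iff_right₀ (by norm_num : (1 : ℝ) < 2)).1 h4
  have h6 : n ≤ 12 * (k * m) := by omega
  have h7 : (n : ℝ) ≤ 12 * (k * m) := by exact_mod_cast h6
  have h8 : (m : ℝ) ≤ 4 * √M := by rw [hmR]; linarith
  calc (n : ℝ) ≤ 12 * (k * m) := h7
    _ ≤ 12 * (k * (4 * √M)) := by gcongr
    _ = 48 * k * √M := by ring

/-- protocols with completeness error `ε` -/
theorem complete {n k : ℕ} (N : Prot (V n) (V n) k) {ε : ℝ} (h0 : 0 ≤ ε) (h1 : ε ≤ 1 / 3)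
    (hN : N.Solves ε (ip n)) : (n : ℝ) ≤ 48 * k * √(1 + ε * 2 ^ k) := by
  have hk2 : (0 : ℝ) < 2 ^ k := by positivity
  refine smooth N (fun x y => ⟨fun h => ((hN x y).1 h).trans h1, (hN x y).2⟩) ?_ ?_
  · have : 0 ≤ ε * 2 ^ k := by positivity
    linarith
  · intro x y z hxy
    refine (pr_le N x y z).trans ?_
    have h2 := (hN x y).1 hxy
    rw [le_div_iff₀ hk2, add_mul]
    have h3 : 1 / 2 ^ k * 2 ^ k = (1 : ℝ) := by field_simp
    rw [h3]
    have := mul_le_mul_of_nonneg_right h2 hk2.le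
    linarith

/-- negligible completeness error forces superlogarithmic cost -/
theorem superlog (k : ℕ → ℕ) (ε : ℕ → ℝ) (N : ∀ n, Prot (V n) (V n) (k n))
    (h0 : ∀ n, 0 ≤ ε n) (h1 : ∀ n, ε n ≤ 1 / 3) (hN : ∀ n, (N n).Solves (ε n) (ip n))
    (hneg : ∀ c : ℕ, ∀ᶠ n : ℕ in Filter.atTop, ε n ≤ 1 / (n : ℝ) ^ c) :
    Filter.Tendsto (fun n => (k n : ℝ) / Real.log n) Filter.atTop Filter.atTop := by
  rw [Filter.tendsto_atTop]
  intro C
  obtain ⟨c, hc⟩ := exists_nat_ge (max C 1)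
  have hc1 : (1 : ℝ) ≤ c := (le_max_right _ _).trans hc
  have hcC : C ≤ c := (le_max_left _ _).trans hc
  have hlog : ∀ᶠ n : ℕ in Filter.atTop, 72 * c * Real.log n < n := by
    have h2 := (Real.isLittleO_log_id_atTop.comp_tendsto tendsto_natCast_atTop_atTop).def
      (c := 1 / (144 * c)) (by positivity)
    filter_upwards [h2, Filter.eventually_ge_atTop 1] with n hn hn1
    simp only [Function.comp, id, Real.norm_eq_abs] at hn
    have hnR : (1 : ℝ) ≤ n := by exact_mod_cast hn1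
    rw [abs_of_nonneg (Real.log_nonneg hnR), abs_of_nonneg (by linarith)] at hn
    calc 72 * c * Real.log n ≤ 72 * c * (1 / (144 * c) * n) := by gcongr
      _ = n / 2 := by field_simp; norm_num
      _ < n := by linarith
  filter_upwards [hlog, hneg c, Filter.eventually_ge_atTop 2] with n hn he hn2
  have hnR : (2 : ℝ) ≤ n := by exact_mod_cast hn2
  have hln : 0 < Real.log n := Real.log_pos (by linarith)
  by_contra hcon
  push Not at hcon
  rw [div_lt_iff₀ hln] at hcon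
  have h2 : (k n : ℝ) ≤ c * Real.log n := by nlinarith
  have h3 : (2 : ℝ) ^ (k n) ≤ (n : ℝ) ^ c := by
    calc (2 : ℝ) ^ (k n) ≤ Real.exp 1 ^ (k n) := by
          apply pow_le_pow_left₀ (by norm_num)
          have := Real.add_one_le_exp (1 : ℝ)
          linarith
      _ = Real.exp (k n) := by rw [← Real.exp_nat_mul, mul_one]
      _ ≤ Real.exp (c * Real.log n) := Real.exp_le_exp.2 h2
      _ = (n : ℝ) ^ c := by
          rw [Real.exp_nat_mul, Real.exp_log (by linarith)]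
  have h4 : ε n * 2 ^ (k n) ≤ 1 := by
    have hnc : (0 : ℝ) < (n : ℝ) ^ c := by positivity
    calc ε n * 2 ^ (k n) ≤ 1 / (n : ℝ) ^ c * (n : ℝ) ^ c :=
          mul_le_mul he h3 (by positivity) (by positivity)
      _ = 1 := by field_simp
  have h5 := complete (N n) (h0 n) (h1 n) (hN n)
  have h6 : √(1 + ε n * 2 ^ (k n)) ≤ 3 / 2 := by
    rw [Real.sqrt_le_left (by norm_num)]
    linarith
  have h7 : (n : ℝ) ≤ 72 * c * Real.log n := by
    calc (n : ℝ) ≤ 48 * (k n) * √(1 + ε n * 2 ^ (k n)) := h5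
      _ ≤ 48 * (c * Real.log n) * (3 / 2) := by gcongr
      _ = 72 * c * Real.log n := by ring
  linarith

end Pool.Agent.Helper79.NZ
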