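import Mathlib

/-!
Chebyshev polynomials by their recursion: the estimates needed for threshold functions near one
end of a long interval.
-/

set_option autoImplicit false

namespace Pool.Agent.Helper79.NZ

open Real

/-- Chebyshev polynomials -/
noncomputable def tc : ℕ → ℝ → ℝ
  | 0, _ => 1
  | 1, u => u
  | (m + 2), u => 2 * u * tc (m + 1) u - tc m u

theorem tc_zero (u : ℝ) : tc 0 u = 1 := by rw [tc]

theorem tc_one (u : ℝ) : tc 1 u = u := by rw [tc]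

theorem tc_step (m : ℕ) (u : ℝ) : tc (m + 2) u = 2 * u * tc (m + 1) u - tc m u := by rw [tc]

theorem tc_cos_aux (θ : ℝ) : ∀ m : ℕ, tc m (cos θ) = cos (m * θ) ∧
    tc (m + 1) (cos θ) = cos ((m + 1 : ℕ) * θ) := by
  intro m
  induction m with
  | zero => simp [tc_zero, tc_one]
  | succ m ih =>
    refine ⟨ih.2, ?_⟩
    rw [tc_step, ih.1, ih.2]
    have h1 : ((m + 1 + 1 : ℕ) : ℝ) * θ = (m + 1 : ℕ) * θ + θ := by push_cast; ring
    have h2 : (m : ℝ) * θ = (m + 1 : ℕ) * θ - θ := by push_cast; ring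
    rw [h1, h2, cos_add, cos_sub]
    ring

theorem tc_cos (m : ℕ) (θ : ℝ) : tc m (cos θ) = cos (m * θ) := (tc_cos_aux θ m).1

theorem tc_cosh_aux (θ : ℝ) : ∀ m : ℕ, tc m (cosh θ) = cosh (m * θ) ∧
    tc (m + 1) (cosh θ) = cosh ((m + 1 : ℕ) * θ) := by
  intro m
  induction m with
  | zero => simp [tc_zero, tc_one]
  | succ m ih =>
    refine ⟨ih.2, ?_⟩
    rw [tc_step, ih.1, ih.2]
    have h1 : ((m + 1 + 1 : ℕ) : ℝ) * θ = (m + 1 : ℕ) * θ + θ := by push_cast; ring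
    have h2 : (m : ℝ) * θ = (m + 1 : ℕ) * θ - θ := by push_cast; ring
    rw [h1, h2, cosh_add, cosh_sub]
    ring

theorem tc_cosh (m : ℕ) (θ : ℝ) : tc m (cosh θ) = cosh (m * θ) := (tc_cosh_aux θ m).1

theorem tc_neg_aux (u : ℝ) : ∀ m : ℕ, tc m (-u) = (-1) ^ m * tc m u ∧
    tc (m + 1) (-u) = (-1) ^ (m + 1) * tc (m + 1) u := by
  intro m
  induction m with
  | zero => simp [tc_zero, tc_one]
  | succ m ih =>
    refine ⟨ih.2, ?_⟩
    rw [tc_step, ih.1, ih.2, tc_step]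
    ring

theorem tc_neg {m : ℕ} (hm : Even m) (u : ℝ) : tc m (-u) = tc m u := by
  rw [(tc_neg_aux u m).1, hm.neg_one_pow, one_mul]

theorem tc_abs_le {u : ℝ} (h1 : -1 ≤ u) (h2 : u ≤ 1) (m : ℕ) : |tc m u| ≤ 1 := by
  rw [← cos_arccos h1 h2, tc_cos]
  exact abs_cos_le_one _

/-- lower bounds for `tc m (1 + y)` and its differences -/
theorem tc_low {y : ℝ} (hy : 0 ≤ y) : ∀ m : ℕ,
    1 + (m : ℝ) ^ 2 * y + (m : ℝ) ^ 2 * ((m : ℝ) ^ 2 - 1) / 6 * y ^ 2 ≤ tc m (1 + y) ∧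
    (2 * (m : ℝ) + 1) * y + (m : ℝ) * (m + 1) * (2 * m + 1) / 3 * y ^ 2 ≤
      tc (m + 1) (1 + y) - tc m (1 + y) := by
  intro m
  induction m with
  | zero => simp [tc_zero, tc_one]
  | succ m ih =>
    have hm : (0 : ℝ) ≤ m := Nat.cast_nonneg m
    have h1 : 1 + ((m + 1 : ℕ) : ℝ) ^ 2 * y +
        ((m + 1 : ℕ) : ℝ) ^ 2 * (((m + 1 : ℕ) : ℝ) ^ 2 - 1) / 6 * y ^ 2 ≤ tc (m + 1) (1 + y) := by
      push_cast
      nlinarith [ih.1, ih.2]
    refine ⟨h1, ?_⟩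
    have h2 : 1 + ((m + 1 : ℕ) : ℝ) ^ 2 * y ≤ tc (m + 1) (1 + y) := by
      refine le_trans ?_ h1
      have : 0 ≤ ((m + 1 : ℕ) : ℝ) ^ 2 * (((m + 1 : ℕ) : ℝ) ^ 2 - 1) / 6 * y ^ 2 := by
        have h3 : (0 : ℝ) ≤ ((m + 1 : ℕ) : ℝ) ^ 2 - 1 := by push_cast; nlinarith
        positivity
      linarith
    rw [tc_step]
    have h3 : 2 * y * (1 + ((m + 1 : ℕ) : ℝ) ^ 2 * y) ≤ 2 * y * tc (m + 1) (1 + y) :=
      mul_le_mul_of_nonneg_left h2 (by linarith)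
    push_cast at h3 ⊢
    nlinarith [ih.2]

theorem tc_one_le {y : ℝ} (hy : 0 ≤ y) (m : ℕ) : 1 ≤ tc m (1 + y) := by
  have h := (tc_low hy m).1
  have h1 : 0 ≤ (m : ℝ) ^ 2 * ((m : ℝ) ^ 2 - 1) := by
    rcases Nat.eq_zero_or_pos m with h0 | h0
    · subst h0; simp
    · have : (1 : ℝ) ≤ m := by exact_mod_cast h0
      have h2 : (0 : ℝ) ≤ (m : ℝ) ^ 2 - 1 := by nlinarith
      positivity
  have h2 : 0 ≤ (m : ℝ) ^ 2 * ((m : ℝ) ^ 2 - 1) / 6 * y ^ 2 := by positivity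
  have h3 : 0 ≤ (m : ℝ) ^ 2 * y := by positivity
  linarith

/-- chord bounds -/
theorem tc_chord {x s : ℝ} (hx : 0 ≤ x) (hs0 : 0 ≤ s) (hs1 : s ≤ 1) : ∀ m : ℕ,
    tc m (1 + x * s) - 1 ≤ s * (tc m (1 + x) - 1) ∧
    tc (m + 1) (1 + x * s) - tc m (1 + x * s) ≤ s * (tc (m + 1) (1 + x) - tc m (1 + x)) := by
  intro m
  induction m with
  | zero =>
    simp only [tc_zero, zero_add, tc_one]
    constructor <;> nlinarith
  | succ m ih =>
    have h1 : tc (m + 1) (1 + x * s) - 1 ≤ s * (tc (m + 1) (1 + x) - 1) := by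
      nlinarith [ih.1, ih.2]
    refine ⟨h1, ?_⟩
    rw [tc_step, tc_step]
    have h2 : tc (m + 1) (1 + x * s) ≤ tc (m + 1) (1 + x) := by
      nlinarith [tc_one_le hx (m + 1)]
    have h3 : 2 * (x * s) * tc (m + 1) (1 + x * s) ≤ 2 * (x * s) * tc (m + 1) (1 + x) :=
      mul_le_mul_of_nonneg_left h2 (by positivity)
    nlinarith [ih.2]

theorem tc_mono {y z : ℝ} (hy : 0 ≤ y) (hyz : y ≤ z) (m : ℕ) : tc m (1 + y) ≤ tc m (1 + z) := by
  rcases eq_or_lt_of_le (hy.trans hyz) with h | h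
  · have : y = z := by linarith
    rw [this]
  · have h1 := (tc_chord h.le (s := y / z) (by positivity) (by rw [div_le_one h]; exact hyz) m).1
    have h2 : z * (y / z) = y := by field_simp
    rw [h2] at h1
    have h3 := tc_one_le h.le m
    have h4 : y / z ≤ 1 := by rw [div_le_one h]; exact hyz
    nlinarith

theorem one_add_le_cosh {v : ℝ} (hv : 0 ≤ v) : 1 + v ^ 2 / 2 ≤ cosh v := by
  have h1 : cosh v = 1 + 2 * sinh (v / 2) ^ 2 := by
    have : v = v / 2 + v / 2 := by ring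
    rw [this, cosh_add]
    have h2 := cosh_sq (v / 2)
    have h3 : (v / 2 + v / 2) / 2 = v / 2 := by ring
    rw [h3]
    nlinarith
  have h2 : v / 2 ≤ sinh (v / 2) := self_le_sinh_iff.2 (by linarith)
  rw [h1]
  nlinarith

theorem cosh_num : cosh (5 / 2) ≤ 62 / 10 := by
  have h1 : exp (5 / 2) ≤ 122 / 10 := by
    have h2 : exp (5 / 2) ^ 2 = exp 1 ^ 5 := by
      rw [← exp_nat_mul, ← exp_nat_mul]
      norm_num
    have h3 := exp_one_lt_d9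
    have h4 : exp 1 ^ 5 ≤ 2.7182818286 ^ 5 := pow_le_pow_left₀ (exp_pos 1).le h3.le 5
    have h5 : exp (5 / 2) ^ 2 ≤ (122 / 10 : ℝ) ^ 2 := by
      rw [h2]
      refine h4.trans (by norm_num)
    exact le_of_sq_le_sq h5 (by norm_num)
  have h2 : exp (-(5 / 2)) ≤ 2 / 10 := by
    rw [exp_neg]
    have h3 : (1 : ℝ) + 5 / 2 + (5 / 2) ^ 2 / 2 ≤ exp (5 / 2) :=
      Real.quadratic_le_exp_of_nonneg (by norm_num)
    have h4 : (5 : ℝ) ≤ exp (5 / 2) := by linarith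
    calc (exp (5 / 2))⁻¹ ≤ (5 : ℝ)⁻¹ := inv_anti₀ (by norm_num) h4
      _ = 2 / 10 := by norm_num
  rw [cosh_eq]
  linarith

/-- the value at the far end -/
theorem tc_up {m : ℕ} (hm : 1 ≤ m) : tc m (1 + 25 / 8 / (m : ℝ) ^ 2) ≤ 62 / 10 := by
  have hm0 : (0 : ℝ) < m := by exact_mod_cast hm
  have h1 : 1 + (5 / 2 / (m : ℝ)) ^ 2 / 2 ≤ cosh (5 / 2 / (m : ℝ)) :=
    one_add_le_cosh (by positivity)
  have h2 : (5 / 2 / (m : ℝ)) ^ 2 / 2 = 25 / 8 / (m : ℝ) ^ 2 := by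
    field_simp
    norm_num
  rw [h2] at h1
  have h3 := tc_mono (y := 25 / 8 / (m : ℝ) ^ 2) (z := cosh (5 / 2 / (m : ℝ)) - 1)
    (by positivity) (by linarith) m
  have h4 : 1 + (cosh (5 / 2 / (m : ℝ)) - 1) = cosh (5 / 2 / (m : ℝ)) := by ring
  rw [h4, tc_cosh] at h3
  have h5 : (m : ℝ) * (5 / 2 / m) = 5 / 2 := by field_simp
  rw [h5] at h3
  exact h3.trans cosh_num

/-- upper bound on a 1-input: `t ≤ 1 + 16 m ^ 2 / 25` -/
theorem tc_yes {m : ℕ} (hm : 1 ≤ m) {t : ℝ} (ht0 : 0 ≤ t) (ht : t ≤ 1 + 16 / 25 * (m : ℝ) ^ 2) :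
    tc m (1 + 25 / 8 / (m : ℝ) ^ 2 * (1 - t)) ≤ 1 + 52 / 10 * max (1 - t) 0 := by
  have hm0 : (0 : ℝ) < m := by exact_mod_cast hm
  rcases le_total t 1 with h | h
  · rw [max_eq_left (by linarith)]
    have h1 := (tc_chord (x := 25 / 8 / (m : ℝ) ^ 2) (s := 1 - t) (by positivity) (by linarith)
      (by linarith) m).1
    have h2 := tc_up hm
    nlinarith
  · rw [max_eq_right (by linarith)]
    have h1 : -1 ≤ 1 + 25 / 8 / (m : ℝ) ^ 2 * (1 - t) := by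
      have h2 : 25 / 8 / (m : ℝ) ^ 2 * (t - 1) ≤ 25 / 8 / (m : ℝ) ^ 2 * (16 / 25 * (m : ℝ) ^ 2) :=
        mul_le_mul_of_nonneg_left (by linarith) (by positivity)
      have h3 : 25 / 8 / (m : ℝ) ^ 2 * (16 / 25 * (m : ℝ) ^ 2) = 2 := by
        field_simp
        norm_num
      linarith
    have h2 : 1 + 25 / 8 / (m : ℝ) ^ 2 * (1 - t) ≤ 1 := by
      have : 0 ≤ 25 / 8 / (m : ℝ) ^ 2 * (t - 1) := by
        have : 0 ≤ t - 1 := by linarith
        positivity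
      linarith
    have h3 := (abs_le.1 (tc_abs_le h1 h2 m)).2
    linarith

/-- even Chebyshev polynomials are at least `-1` -/
theorem tc_even {m : ℕ} (hm : Even m) (u : ℝ) : -1 ≤ tc m u := by
  rcases le_total u 1 with h | h
  · rcases le_total (-1) u with h' | h'
    · exact (abs_le.1 (tc_abs_le h' h m)).1
    · rw [← tc_neg hm]
      have h1 := tc_one_le (y := -u - 1) (by linarith) m
      have h2 : 1 + (-u - 1) = -u := by ring
      rw [h2] at h1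
      linarith
  · have h1 := tc_one_le (y := u - 1) (by linarith) m
    have h2 : 1 + (u - 1) = u := by ring
    rw [h2] at h1
    linarith

/-- lower bound on a 0-input -/
theorem tc_no {m : ℕ} (hm : Even m) (hm2 : 2 ≤ m) {t : ℝ} (ht0 : 0 ≤ t) :
    (2 + 25 / 8 + 1.6276) * max (1 - t) 0 - 0.5426 ≤
      1 + tc m (1 + 25 / 8 / (m : ℝ) ^ 2 * (1 - t)) := by
  have hm0 : (2 : ℝ) ≤ m := by exact_mod_cast hm2
  rcases le_total t 1 with h | h
  · rw [max_eq_left (by linarith)]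
    have h1 := (tc_low (y := 25 / 8 / (m : ℝ) ^ 2 * (1 - t))
      (mul_nonneg (by positivity) (by linarith)) m).1
    have h2 : (m : ℝ) ^ 2 * (25 / 8 / (m : ℝ) ^ 2 * (1 - t)) = 25 / 8 * (1 - t) := by
      field_simp
    have h3 : (m : ℝ) ^ 2 * ((m : ℝ) ^ 2 - 1) / 6 * (25 / 8 / (m : ℝ) ^ 2 * (1 - t)) ^ 2 =
        (25 / 8) ^ 2 / 6 * (1 - 1 / (m : ℝ) ^ 2) * (1 - t) ^ 2 := by
      field_simp
    rw [h2, h3] at h1
    have h4 : 1 / (m : ℝ) ^ 2 ≤ 1 / 4 := by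
      apply one_div_le_one_div_of_le (by norm_num)
      nlinarith
    have h5 : (25 / 8 : ℝ) ^ 2 / 6 * (3 / 4) * (1 - t) ^ 2 ≤
        (25 / 8) ^ 2 / 6 * (1 - 1 / (m : ℝ) ^ 2) * (1 - t) ^ 2 := by
      gcongr
      linarith
    nlinarith [sq_nonneg ((1 - t) - 2 / 3)]
  · rw [max_eq_right (by linarith)]
    have := tc_even hm (1 + 25 / 8 / (m : ℝ) ^ 2 * (1 - t))
    norm_num
    linarith

end Pool.Agent.Helper79.NZ
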