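import Mathlib

/-!
Two-party protocols with private coins whose output is a distribution on strings, and the
communication model NISZK.
-/

set_option autoImplicit false

namespace Pool.Agent.Helper79.NZ

/-- Two-way communication protocols.  Alice holds `a : A`, Bob holds `b : B` (inputs together with
private coins).  At a node `alice f p q` Alice sends the bit `f a`, at a node `bob f p q` Bob sends
the bit `f b`; the protocol goes on with `q` if the bit is `true` and with `p` if it is `false`.
At a leaf `out g` Bob outputs `g b`. -/
inductive Proto (A B O : Type) : Type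
  | out : (B → O) → Proto A B O
  | alice : (A → Bool) → Proto A B O → Proto A B O → Proto A B O
  | bob : (B → Bool) → Proto A B O → Proto A B O → Proto A B O

variable {A B O : Type}

/-- the largest number of bits exchanged -/
def Proto.depth : Proto A B O → ℕ
  | .out _ => 0
  | .alice _ p q => max p.depth q.depth + 1
  | .bob _ p q => max p.depth q.depth + 1

/-- the output of Bob -/
def Proto.run : Proto A B O → A → B → O
  | .out g, _, b => g b
  | .alice f p q, a, b => if f a = true then q.run a b else p.run a b
  | .bob f p q, a, b => if f b = true then q.run a b else p.run a b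

/-- A protocol with private coins and cost `k`: Alice has a coin `r : RA` with distribution `μ`,
Bob has a coin `s : RB` with distribution `ν`, they exchange at most `k` bits and Bob outputs a
string of length `k`. -/
structure Prot (X Y : Type) (k : ℕ) where
  RA : Type
  RB : Type
  fA : Fintype RA
  fB : Fintype RB
  μ : RA → ℝ
  ν : RB → ℝ
  μ_nonneg : ∀ r, 0 ≤ μ r
  ν_nonneg : ∀ s, 0 ≤ ν s
  μ_sum : ∑ r, μ r = 1
  ν_sum : ∑ s, ν s = 1
  P : Proto (X × RA) (Y × RB) (Fin k → Bool)
  depth_le : P.depth ≤ k

attribute [instance] Prot.fA Prot.fB

variable {X Y : Type} {k : ℕ}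

/-- the probability that Bob outputs `z` on input `(x, y)` -/
noncomputable def Prot.pr (N : Prot X Y k) (x : X) (y : Y) (z : Fin k → Bool) : ℝ :=
  ∑ r, ∑ s, if N.P.run (x, r) (y, s) = z then N.μ r * N.ν s else 0

/-- the statistical distance of the output distribution on input `(x, y)` from uniform -/
noncomputable def Prot.dist (N : Prot X Y k) (x : X) (y : Y) : ℝ :=
  1 / 2 * ∑ z, |N.pr x y z - 1 / 2 ^ k|

/-- `N` is an NISZK protocol for `f` with completeness error `ε`: on 1-inputs the output is within
distance `ε` of uniform, on 0-inputs it is at distance at least `2/3` from uniform. -/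
def Prot.Solves (N : Prot X Y k) (ε : ℝ) (f : X → Y → Bool) : Prop :=
  ∀ x y, (f x y = true → N.dist x y ≤ ε) ∧ (f x y = false → 2 / 3 ≤ N.dist x y)

/-- inner product modulo 2 -/
def ip (n : ℕ) (x y : Fin n → Bool) : Bool :=
  decide ((Finset.univ.filter fun i => x i = true ∧ y i = true).card % 2 = 1)

end Pool.Agent.Helper79.NZ
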