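import Pool.Agent.Helper79.NZ.Cheb
import Pool.Agent.Helper79.NZ.Defs

/-!
Correlation with the inner product function.
-/

set_option autoImplicit false

namespace Pool.Agent.Helper79.NZ

open Finset

/-- inputs -/
abbrev V (n : ℕ) := Fin n → Bool

/-- the sign of the inner product -/
noncomputable def chi {n : ℕ} (x y : V n) : ℝ :=
  ∏ i, if x i = true ∧ y i = true then (-1 : ℝ) else 1

theorem chi_eq {n : ℕ} (x y : V n) :
    chi x y = (-1) ^ (univ.filter fun i => x i = true ∧ y i = true).card := by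
  rw [chi, prod_ite, prod_const, prod_const_one, mul_one]

theorem chi_true {n : ℕ} {x y : V n} (h : ip n x y = true) : chi x y = -1 := by
  rw [chi_eq]
  rw [ip, decide_eq_true_eq] at h
  exact (Nat.odd_iff.2 h).neg_one_pow

theorem chi_false {n : ℕ} {x y : V n} (h : ip n x y = false) : chi x y = 1 := by
  rw [chi_eq]
  rw [ip, decide_eq_false_iff_not] at h
  exact (Nat.even_iff.2 (by omega)).neg_one_pow

theorem orth {n : ℕ} (y y' : V n) :
    ∑ x : V n, chi x y * chi x y' = if y = y' then (2 : ℝ) ^ n else 0 := by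
  have h1 : ∀ x : V n, chi x y * chi x y' = ∏ i, ((if x i = true ∧ y i = true then (-1 : ℝ) else 1) *
      (if x i = true ∧ y' i = true then (-1 : ℝ) else 1)) := by
    intro x
    rw [chi, chi, ← prod_mul_distrib]
  simp only [h1]
  have h2 := Finset.prod_univ_sum (t := fun _ : Fin n => (univ : Finset Bool))
    (f := fun i (b : Bool) => ((if b = true ∧ y i = true then (-1 : ℝ) else 1) *
      (if b = true ∧ y' i = true then (-1 : ℝ) else 1)))
  rw [Fintype.piFinset_univ] at h2
  rw [← h2]
  have h3 : ∀ i, (∑ b : Bool, ((if b = true ∧ y i = true then (-1 : ℝ) else 1) *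
      (if b = true ∧ y' i = true then (-1 : ℝ) else 1))) = if y i = y' i then 2 else 0 := by
    intro i
    rw [Fintype.sum_bool]
    cases y i <;> cases y' i <;> norm_num
  simp only [h3]
  split_ifs with h
  · subst h
    simp
  · obtain ⟨i, hi⟩ := Function.ne_iff.1 h
    exact prod_eq_zero (mem_univ i) (if_neg hi)

/-- `F` has correlation at most `K 8 ^ (n / 2)` with `chi` times any product function -/
def Cor (n : ℕ) (K : ℝ) (F : V n → V n → ℝ) : Prop :=
  ∀ a b : V n → ℝ, (∀ x, |a x| ≤ 1) → (∀ y, |b y| ≤ 1) →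
    |∑ x, ∑ y, chi x y * a x * b y * F x y| ≤ K * √((8 : ℝ) ^ n)

variable {n : ℕ} {K L : ℝ} {F G : V n → V n → ℝ}

theorem Cor.mono (h : Cor n K F) (hKL : K ≤ L) : Cor n L F := fun a b ha hb =>
  (h a b ha hb).trans (mul_le_mul_of_nonneg_right hKL (Real.sqrt_nonneg _))

theorem Cor.congr (h : Cor n K F) (hFG : ∀ x y, G x y = F x y) : Cor n K G := by
  intro a b ha hb
  simp only [hFG]
  exact h a b ha hb

theorem cor_one : Cor n 1 (fun _ _ => 1) := by
  intro a b ha hb
  rw [one_mul]
  apply Real.abs_le_sqrt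
  have h1 : (∑ x, ∑ y, chi x y * a x * b y * 1) = ∑ x, a x * ∑ y, chi x y * b y := by
    refine sum_congr rfl fun x _ => ?_
    rw [mul_sum]
    exact sum_congr rfl fun y _ => by ring
  rw [h1]
  have hcard : (Fintype.card (V n) : ℝ) = 2 ^ n := by simp
  have hsq : ∀ c : V n → ℝ, (∀ x, |c x| ≤ 1) → (∑ x, c x ^ 2) ≤ 2 ^ n := by
    intro c hc
    calc (∑ x, c x ^ 2) ≤ ∑ x : V n, (1 : ℝ) := sum_le_sum fun x _ => by
          rw [← sq_abs]
          exact pow_le_one₀ (abs_nonneg _) (hc x)
      _ = 2 ^ n := by rw [sum_const, card_univ, nsmul_eq_mul, mul_one, hcard]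
  have h2 : (∑ x, (∑ y, chi x y * b y) ^ 2) = 2 ^ n * ∑ y, b y ^ 2 := by
    have e1 : ∀ x : V n, (∑ y, chi x y * b y) ^ 2 =
        ∑ y, ∑ y', b y * b y' * (chi x y * chi x y') := by
      intro x
      rw [sq, sum_mul_sum]
      exact sum_congr rfl fun y _ => sum_congr rfl fun y' _ => by ring
    simp only [e1]
    rw [sum_comm]
    have e2 : ∀ y : V n, (∑ x, ∑ y', b y * b y' * (chi x y * chi x y')) = 2 ^ n * b y ^ 2 := by
      intro y
      rw [sum_comm]
      simp only [← mul_sum, orth]
      simp only [mul_ite, mul_zero]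
      rw [sum_ite_eq]
      simp
      ring
    simp only [e2]
    rw [mul_sum]
  have h3 := Finset.sum_mul_sq_le_sq_mul_sq univ a (fun x => ∑ y, chi x y * b y)
  rw [h2] at h3
  refine h3.trans ?_
  calc (∑ x, a x ^ 2) * (2 ^ n * ∑ y, b y ^ 2) ≤ 2 ^ n * (2 ^ n * 2 ^ n) := by
        gcongr
        · exact hsq a ha
        · exact hsq b hb
    _ = 8 ^ n := by
        rw [← mul_pow, ← mul_pow]
        norm_num

theorem Cor.add (hF : Cor n K F) (hG : Cor n L G) : Cor n (K + L) (fun x y => F x y + G x y) := by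
  intro a b ha hb
  have h1 : (∑ x, ∑ y, chi x y * a x * b y * (F x y + G x y)) =
      (∑ x, ∑ y, chi x y * a x * b y * F x y) + ∑ x, ∑ y, chi x y * a x * b y * G x y := by
    rw [← sum_add_distrib]
    refine sum_congr rfl fun x _ => ?_
    rw [← sum_add_distrib]
    exact sum_congr rfl fun y _ => by ring
  rw [h1, add_mul]
  exact (abs_add_le _ _).trans (add_le_add (hF a b ha hb) (hG a b ha hb))

theorem Cor.smul (hF : Cor n K F) (c : ℝ) : Cor n (|c| * K) (fun x y => c * F x y) := by
  intro a b ha hb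
  have h1 : (∑ x, ∑ y, chi x y * a x * b y * (c * F x y)) =
      c * ∑ x, ∑ y, chi x y * a x * b y * F x y := by
    rw [mul_sum]
    refine sum_congr rfl fun x _ => ?_
    rw [mul_sum]
    exact sum_congr rfl fun y _ => by ring
  rw [h1, abs_mul, mul_assoc]
  exact mul_le_mul_of_nonneg_left (hF a b ha hb) (abs_nonneg _)

theorem Cor.sum {ι : Type} (s : Finset ι) {F : ι → V n → V n → ℝ} (h : ∀ i, Cor n K (F i)) :
    Cor n (s.card * K) (fun x y => ∑ i ∈ s, F i x y) := by
  classical
  induction s using Finset.induction_on with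
  | empty =>
    intro a b _ _
    simp
  | insert i s hi ih =>
    have h1 := (h i).add ih
    refine (h1.congr fun x y => ?_).mono ?_
    · rw [sum_insert hi]
    · rw [card_insert_of_notMem hi]
      push_cast
      linarith

theorem Cor.rank (hF : Cor n K F) {u v : V n → ℝ} (hu : ∀ x, |u x| ≤ 1) (hv : ∀ y, |v y| ≤ 1) :
    Cor n K (fun x y => u x * v y * F x y) := by
  intro a b ha hb
  have h1 := hF (fun x => a x * u x) (fun y => b y * v y)
    (fun x => by
      rw [abs_mul]
      exact mul_le_one₀ (ha x) (abs_nonneg _) (hu x))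
    (fun y => by
      rw [abs_mul]
      exact mul_le_one₀ (hb y) (abs_nonneg _) (hv y))
  refine le_trans (le_of_eq ?_) h1
  congr 1
  refine sum_congr rfl fun x _ => sum_congr rfl fun y _ => ?_
  ring

/-- multiplication by the probability of an output -/
theorem cor_proto {RA RB O : Type} [Fintype RA] [Fintype RB] [DecidableEq O]
    (P : Proto (V n × RA) (V n × RB) O) (z : O) : ∀ (α : V n → RA → ℝ) (β : V n → RB → ℝ),
    (∀ x r, 0 ≤ α x r) → (∀ y s, 0 ≤ β y s) → (∀ x, ∑ r, α x r ≤ 1) → (∀ y, ∑ s, β y s ≤ 1) →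
    0 ≤ K → Cor n K F → Cor n (2 ^ P.depth * K) (fun x y =>
      (∑ r, ∑ s, if P.run (x, r) (y, s) = z then α x r * β y s else 0) * F x y) := by
  induction P with
  | out g =>
    intro α β hα hβ hα1 hβ1 hK hF
    have h1 := hF.rank (u := fun x => ∑ r, α x r)
      (v := fun y => ∑ s, if g (y, s) = z then β y s else 0)
      (fun x => by
        rw [abs_of_nonneg (sum_nonneg fun r _ => hα x r)]
        exact hα1 x)
      (fun y => by
        rw [abs_of_nonneg (sum_nonneg fun s _ => by split_ifs; exacts [hβ y s, le_rfl])]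
        refine (sum_le_sum fun s _ => ?_).trans (hβ1 y)
        split_ifs
        exacts [le_rfl, hβ y s])
    refine (h1.congr fun x y => ?_).mono ?_
    · congr 1
      rw [sum_mul_sum]
      refine sum_congr rfl fun r _ => sum_congr rfl fun s _ => ?_
      have e : (Proto.out g : Proto (V n × RA) (V n × RB) O).run (x, r) (y, s) = g (y, s) := rfl
      rw [e]
      by_cases h : g (y, s) = z <;> simp [h]
    · simp [Proto.depth]
  | alice f p q ihp ihq =>
    intro α β hα hβ hα1 hβ1 hK hF
    have hq := ihq (fun x r => if f (x, r) = true then α x r else 0) β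
      (fun x r => by split_ifs; exacts [hα x r, le_rfl]) hβ
      (fun x => (sum_le_sum fun r _ => by split_ifs; exacts [le_rfl, hα x r]).trans (hα1 x))
      hβ1 hK hF
    have hp := ihp (fun x r => if f (x, r) = true then 0 else α x r) β
      (fun x r => by split_ifs; exacts [le_rfl, hα x r]) hβ
      (fun x => (sum_le_sum fun r _ => by split_ifs; exacts [hα x r, le_rfl]).trans (hα1 x))
      hβ1 hK hF
    refine ((hq.add hp).congr fun x y => ?_).mono ?_
    · rw [← add_mul]
      congr 1
      rw [← sum_add_distrib]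
      refine sum_congr rfl fun r _ => ?_
      rw [← sum_add_distrib]
      refine sum_congr rfl fun s _ => ?_
      simp only [Proto.run]
      by_cases h : f (x, r) = true <;> simp [h]
    · have h1 : (2 : ℝ) ^ q.depth ≤ 2 ^ max p.depth q.depth :=
        pow_le_pow_right₀ (by norm_num) (le_max_right _ _)
      have h2 : (2 : ℝ) ^ p.depth ≤ 2 ^ max p.depth q.depth :=
        pow_le_pow_right₀ (by norm_num) (le_max_left _ _)
      rw [← add_mul]
      refine mul_le_mul_of_nonneg_right ?_ hK
      simp only [Proto.depth]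
      rw [pow_succ]
      linarith
  | bob f p q ihp ihq =>
    intro α β hα hβ hα1 hβ1 hK hF
    have hq := ihq α (fun y s => if f (y, s) = true then β y s else 0)
      hα (fun y s => by split_ifs; exacts [hβ y s, le_rfl]) hα1
      (fun y => (sum_le_sum fun s _ => by split_ifs; exacts [le_rfl, hβ y s]).trans (hβ1 y))
      hK hF
    have hp := ihp α (fun y s => if f (y, s) = true then 0 else β y s)
      hα (fun y s => by split_ifs; exacts [le_rfl, hβ y s]) hα1
      (fun y => (sum_le_sum fun s _ => by split_ifs; exacts [hβ y s, le_rfl]).trans (hβ1 y))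
      hK hF
    refine ((hq.add hp).congr fun x y => ?_).mono ?_
    · rw [← add_mul]
      congr 1
      rw [← sum_add_distrib]
      refine sum_congr rfl fun r _ => ?_
      rw [← sum_add_distrib]
      refine sum_congr rfl fun s _ => ?_
      simp only [Proto.run]
      by_cases h : f (y, s) = true <;> simp [h]
    · have h1 : (2 : ℝ) ^ q.depth ≤ 2 ^ max p.depth q.depth :=
        pow_le_pow_right₀ (by norm_num) (le_max_right _ _)
      have h2 : (2 : ℝ) ^ p.depth ≤ 2 ^ max p.depth q.depth :=
        pow_le_pow_right₀ (by norm_num) (le_max_left _ _)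
      rw [← add_mul]
      refine mul_le_mul_of_nonneg_right ?_ hK
      simp only [Proto.depth]
      rw [pow_succ]
      linarith

/-- multiplication by the probability of an output, for protocols of cost `k` -/
theorem cor_pr {k : ℕ} (N : Prot (V n) (V n) k) (z : Fin k → Bool) (hK : 0 ≤ K) (hF : Cor n K F) :
    Cor n (2 ^ k * K) (fun x y => N.pr x y z * F x y) := by
  have h := cor_proto N.P z (fun _ => N.μ) (fun _ => N.ν) (fun _ => N.μ_nonneg)
    (fun _ => N.ν_nonneg) (fun _ => N.μ_sum.le) (fun _ => N.ν_sum.le) hK hF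
  refine Cor.mono h (mul_le_mul_of_nonneg_right ?_ hK)
  exact pow_le_pow_right₀ (by norm_num) N.depth_le

/-- multiplication by the affine function of the normalised probability -/
theorem cor_phi {k : ℕ} (N : Prot (V n) (V n) k) (z : Fin k → Bool) {e : ℝ} (he : 0 ≤ e)
    (hK : 0 ≤ K) (hF : Cor n K F) :
    Cor n ((1 + e + e * 4 ^ k) * K)
      (fun x y => (1 + e * (1 - 2 ^ k * N.pr x y z)) * F x y) := by
  have h1 := hF.smul (1 + e)
  have h2 := (cor_pr N z hK hF).smul (-(e * 2 ^ k))
  refine ((h1.add h2).congr fun x y => by ring).mono ?_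
  rw [abs_of_nonneg (by linarith), abs_neg, abs_of_nonneg (by positivity)]
  have : (4 : ℝ) ^ k = 2 ^ k * 2 ^ k := by rw [← mul_pow]; norm_num
  rw [this]
  apply le_of_eq
  ring

theorem cor_tc {k : ℕ} (N : Prot (V n) (V n) k) (z : Fin k → Bool) {e B : ℝ} (he : 0 ≤ e)
    (hB : 1 + e + e * 4 ^ k ≤ B) (j : ℕ) :
    Cor n ((2 * B + 1) ^ j) (fun x y => tc j (1 + e * (1 - 2 ^ k * N.pr x y z))) ∧
    Cor n ((2 * B + 1) ^ (j + 1)) (fun x y => tc (j + 1) (1 + e * (1 - 2 ^ k * N.pr x y z))) := by
  have hB1 : 1 ≤ B := by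
    have : 0 ≤ e * 4 ^ k := by positivity
    linarith
  induction j with
  | zero =>
    refine ⟨?_, ?_⟩
    · rw [pow_zero]
      exact cor_one.congr fun x y => tc_zero _
    · have h1 := cor_phi N z he zero_le_one (cor_one (n := n))
      refine (h1.congr fun x y => ?_).mono ?_
      · rw [zero_add, tc_one, mul_one]
      · rw [zero_add, pow_one]
        linarith
  | succ j ih =>
    refine ⟨ih.2, ?_⟩
    have hp : (0 : ℝ) ≤ (2 * B + 1) ^ (j + 1) := by positivity
    have h1 := (cor_phi N z he hp ih.2).smul 2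
    have h2 := ih.1.smul (-1)
    refine ((h1.add h2).congr fun x y => ?_).mono ?_
    · rw [tc_step]
      ring
    · rw [abs_of_nonneg (by norm_num : (0 : ℝ) ≤ 2), abs_neg, abs_one, one_mul]
      have h3 : (2 * B + 1) ^ j ≤ (2 * B + 1) ^ (j + 1) :=
        pow_le_pow_right₀ (by linarith) (Nat.le_succ j)
      have h4 : (1 + e + e * 4 ^ k) * (2 * B + 1) ^ (j + 1) ≤ B * (2 * B + 1) ^ (j + 1) :=
        mul_le_mul_of_nonneg_right hB hp
      have h5 : (2 * B + 1) ^ (j + 1 + 1) = 2 * (B * (2 * B + 1) ^ (j + 1)) +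
          (2 * B + 1) ^ (j + 1) := by ring
      linarith

end Pool.Agent.Helper79.NZ
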